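import Mathlib
import Pool.Agent.Y73.XB.Fld

/-!
# The values of brachymorphisms of free algebras at linear forms

For fields `k`, `K` and an arbitrary set `X` of indeterminates we determine the possible values at
the scalars and at the linear forms of a brachymorphism `f` from the free algebra `k⟨X⟩` to `K`: the
restriction `φ` of `f` to `k` is a homomorphism of fields, the restriction `h` of `f` to the space of
linear forms is homogeneous, `h (c v) = φ (c) h (v)`, and *all* such pairs `(φ, h)` occur. No other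
relation between the values at different linear forms, in particular no trace of additivity, is
left. For example for every field `k` and every function `g` on `k` with `g (0) = 0` there is a
brachymorphism `f` from `k⟨x, y⟩` to `k` with `f (x) = f (y) = 0` and `f (x + c y) = g (c)` for all
`c`; with `g (1) = 1` this answers the question.
-/

set_option autoImplicit false
set_option linter.style.haveILetI false

namespace Pool.Agent.Results.MP_0e398f_al.PrescribedLinearForms

open Pool.Agent.Y73.XB (exists_ext)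

universe u v w

/-- `f (1 + a) = 1 + f a` and `f (a b) = f a f b`. -/
structure IsBrachymorphism {R : Type u} {S : Type v} [Ring R] [Ring S] (f : R → S) : Prop where
  one_add : ∀ a, f (1 + a) = 1 + f a
  mul : ∀ a b, f (a * b) = f a * f b

/-- The linear form `∑ α_x x` in the indeterminates `x ∈ X`. -/
noncomputable def linearForm (k : Type u) [Field k] {X : Type v} (α : X →₀ k) : FreeAlgebra k X :=
  α.sum fun x c => c • FreeAlgebra.ι k x

section aux

variable {k : Type u} {K : Type v} [Field k] [Field K] {X : Type w}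

/-- coefficientwise application of a homomorphism of fields -/
noncomputable def mp (φ : k →+* K) (α : X →₀ k) : X →₀ K := α.mapRange φ (map_zero φ)

lemma mp_apply (φ : k →+* K) (α : X →₀ k) (x : X) : mp φ α x = φ (α x) :=
  Finsupp.mapRange_apply ..

lemma mp_ne_zero (φ : k →+* K) {α : X →₀ k} (hα : α ≠ 0) : mp φ α ≠ 0 := by
  intro h
  apply hα
  ext x
  have h1 := DFunLike.congr_fun h x
  rw [mp_apply, Finsupp.zero_apply] at h1
  exact φ.injective (by rw [h1, Finsupp.zero_apply, map_zero])

lemma well_def (φ : k →+* K) (h : (X →₀ k) → K) (hh : ∀ c α, h (c • α) = φ c * h α) {a b : K}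
    {α β : X →₀ k} (hα : α ≠ 0) (hβ : β ≠ 0) (hab : a • mp φ α = b • mp φ β) :
    a * h α = b * h β := by
  by_cases ha : a = 0
  · rw [ha, zero_smul] at hab
    rcases smul_eq_zero.1 hab.symm with hb | hb
    · rw [ha, hb, zero_mul, zero_mul]
    · exact absurd hb (mp_ne_zero φ hβ)
  · obtain ⟨x, hx⟩ : ∃ x, α x ≠ 0 := by
      by_contra hcon
      push Not at hcon
      exact hα (Finsupp.ext hcon)
    have hval : ∀ y, a * φ (α y) = b * φ (β y) := by
      intro y
      have h1 := DFunLike.congr_fun hab y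
      rw [Finsupp.smul_apply, Finsupp.smul_apply, mp_apply, mp_apply] at h1
      exact h1
    have hφx : φ (α x) ≠ 0 := fun h0 => hx (φ.injective (by rw [h0, map_zero]))
    have hβx : β x ≠ 0 := by
      intro h0
      have h1 := hval x
      rw [h0, map_zero, mul_zero] at h1
      exact (mul_ne_zero ha hφx) h1
    have hφb : φ (β x) ≠ 0 := fun h0 => hβx (φ.injective (by rw [h0, map_zero]))
    have h3 : b = a * φ (α x / β x) := by
      rw [map_div₀]
      have := hval x
      field_simp
      rw [this]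
    have h4 : α = (α x / β x) • β := by
      ext y
      apply φ.injective
      rw [Finsupp.smul_apply, smul_eq_mul, map_mul]
      have h5 := hval y
      rw [h3, mul_assoc] at h5
      exact mul_left_cancel₀ ha h5
    have h6 : h α = φ (α x / β x) * h β := by
      conv_lhs => rw [h4]
      rw [hh]
    rw [h6, h3, mul_assoc]

open Classical in
/-- the homogeneous extension of `h` -/
noncomputable def ext (φ : k →+* K) (h : (X →₀ k) → K) (β : X →₀ K) : K :=
  if hβ : ∃ p : K × (X →₀ k), p.2 ≠ 0 ∧ β = p.1 • mp φ p.2 then hβ.choose.1 * h hβ.choose.2 else 0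

lemma ext_eq (φ : k →+* K) (h : (X →₀ k) → K) (hh : ∀ c α, h (c • α) = φ c * h α) (a : K)
    {α : X →₀ k} (hα : α ≠ 0) : ext φ h (a • mp φ α) = a * h α := by
  have hβ : ∃ p : K × (X →₀ k), p.2 ≠ 0 ∧ a • mp φ α = p.1 • mp φ p.2 := ⟨(a, α), hα, rfl⟩
  rw [ext, dif_pos hβ]
  exact (well_def φ h hh hα hβ.choose_spec.1 hβ.choose_spec.2).symm

lemma ext_zero (φ : k →+* K) (h : (X →₀ k) → K) (hh : ∀ c α, h (c • α) = φ c * h α) :
    ext φ h 0 = 0 := by
  by_cases hX : ∃ α : X →₀ k, α ≠ 0
  · obtain ⟨α, hα⟩ := hX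
    have h1 := ext_eq φ h hh 0 hα
    rwa [zero_smul, zero_mul] at h1
  · rw [ext, dif_neg]
    rintro ⟨p, hp, -⟩
    exact hX ⟨p.2, hp⟩

lemma ext_smul (φ : k →+* K) (h : (X →₀ k) → K) (hh : ∀ c α, h (c • α) = φ c * h α) (c : K)
    (β : X →₀ K) : ext φ h (c • β) = c * ext φ h β := by
  by_cases hc : c = 0
  · rw [hc, zero_smul, zero_mul, ext_zero φ h hh]
  by_cases hβ : ∃ p : K × (X →₀ k), p.2 ≠ 0 ∧ β = p.1 • mp φ p.2
  · obtain ⟨⟨a, α⟩, hα, rfl⟩ := hβ
    rw [smul_smul, ext_eq φ h hh _ hα, ext_eq φ h hh _ hα, mul_assoc]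
  · have h1 : ¬ ∃ p : K × (X →₀ k), p.2 ≠ 0 ∧ c • β = p.1 • mp φ p.2 := by
      rintro ⟨⟨a, α⟩, hα, h2⟩
      refine hβ ⟨(c⁻¹ * a, α), hα, ?_⟩
      rw [mul_smul, ← h2, smul_smul, inv_mul_cancel₀ hc, one_smul]
    rw [ext, ext, dif_neg h1, dif_neg hβ, mul_zero]

lemma exists_of (φ : k →+* K) (h : (X →₀ k) → K) (hh : ∀ c α, h (c • α) = φ c * h α) :
    ∃ f : FreeAlgebra k X → K, IsBrachymorphism f ∧ (∀ c, f (algebraMap k _ c) = φ c) ∧
      ∀ α, f (linearForm k α) = h α := by
  obtain ⟨f, hf1, hf2, hf3, hf4⟩ := exists_ext K (ext φ h) (ext_smul φ h hh)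
  letI : Algebra k K := φ.toAlgebra
  let Φ : FreeAlgebra k X →ₐ[k] FreeAlgebra K X := FreeAlgebra.lift k (FreeAlgebra.ι K)
  have hΦc : ∀ c, Φ (algebraMap k _ c) = algebraMap K _ (φ c) := by
    intro c
    rw [Φ.commutes, IsScalarTower.algebraMap_apply k K (FreeAlgebra K X)]
    rfl
  have hΦl : ∀ α : X →₀ k, Φ (linearForm k α) = Pool.Agent.Y73.XB.lin (mp φ α) := by
    intro α
    have h1 : (mp φ α).sum (fun x c => c • FreeAlgebra.ι K x) =
        α.sum fun x c => φ c • FreeAlgebra.ι K x :=
      Finsupp.sum_mapRange_index (h := fun x c => c • FreeAlgebra.ι K x) fun x => zero_smul K _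
    rw [linearForm, Pool.Agent.Y73.XB.lin, h1, Finsupp.sum, Finsupp.sum, map_sum]
    refine Finset.sum_congr rfl fun x _ => ?_
    rw [Algebra.smul_def, map_mul, hΦc, Algebra.smul_def]
    congr 1
    exact FreeAlgebra.lift_ι_apply _ _
  refine ⟨fun a => f (Φ a), ⟨fun a => ?_, fun a b => ?_⟩, fun c => ?_, fun α => ?_⟩
  · show f (Φ (1 + a)) = 1 + f (Φ a)
    rw [map_add, map_one, hf1]
  · show f (Φ (a * b)) = f (Φ a) * f (Φ b)
    rw [map_mul, hf2]
  · show f (Φ _) = _
    rw [hΦc, hf3]
  · show f (Φ _) = _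
    rw [hΦl, hf4]
    by_cases hα : α = 0
    · have h0 : h 0 = 0 := by
        have := hh 0 0
        rwa [zero_smul, map_zero, zero_mul] at this
      have h1 : mp φ (0 : X →₀ k) = 0 := Finsupp.mapRange_zero
      rw [hα, h1, ext_zero φ h hh, h0]
    · have h1 := ext_eq φ h hh 1 hα
      rwa [one_smul, one_mul] at h1

/-- a brachymorphism on a field is additive -/
lemma field_add {f : k → K} (hf : ∀ a, f (1 + a) = 1 + f a) (hm : ∀ a b, f (a * b) = f a * f b)
    (h0 : f 0 = 0) (a b : k) : f (a + b) = f a + f b := by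
  by_cases ha : a = 0
  · rw [ha, zero_add, h0, zero_add]
  · have h1 : a + b = a * (1 + a⁻¹ * b) := by field_simp
    have h2 : f b = f a * f (a⁻¹ * b) := by
      rw [← hm]
      congr 1
      field_simp
    rw [h1, hm, hf, h2]
    ring

end aux

/-- (1) Let `k`, `K` be fields, `X` a set, `φ` a function from `k` to `K` and `h` a function from
the linear forms (given by their coefficients `α`) over `k` in `X` to `K`. There is a brachymorphism
from the free algebra of `k` on `X` to `K` with the values `φ c` at the scalars `c` and `h α` at the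
linear forms `∑ α_x x` if and only if `φ` is a homomorphism of fields and
`h (c α) = φ (c) h (α)` for all `c` and `α`.
(2) For every field `k` and every function `g` on `k` with `g 0 = 0` there is a brachymorphism `f`
from `k⟨x, y⟩` to `k` which is the identity on `k`, with `f x = f y = 0` and `f (x + c y) = g c` for
all `c ∈ k`. -/
theorem result :
    (∀ (k : Type u) (K : Type v) [Field k] [Field K] (X : Type w) (φ : k → K)
      (h : (X →₀ k) → K),
      (∃ f : FreeAlgebra k X → K, IsBrachymorphism f ∧ (∀ c, f (algebraMap k _ c) = φ c) ∧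
        ∀ α, f (linearForm k α) = h α) ↔
      ((∃ ψ : k →+* K, ∀ c, ψ c = φ c) ∧ ∀ c α, h (c • α) = φ c * h α)) ∧
    (∀ (k : Type u) [Field k] (g : k → k), g 0 = 0 → ∃ f : FreeAlgebra k (Fin 2) → k,
      IsBrachymorphism f ∧ (∀ c, f (algebraMap k _ c) = c) ∧
      f (FreeAlgebra.ι k 0) = 0 ∧ f (FreeAlgebra.ι k 1) = 0 ∧
      ∀ c : k, f (FreeAlgebra.ι k 0 + c • FreeAlgebra.ι k 1) = g c) := by
  refine ⟨fun k K _ _ X φ h => ⟨?_, ?_⟩, fun k _ g hg => ?_⟩
  · rintro ⟨f, hf, hφ, hh⟩
    have h00 : f 0 = 0 := by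
      have h1 := hf.one_add 0
      have h2 := hf.one_add (-1)
      have h3 := hf.mul 0 0
      rw [mul_zero] at h3
      have h4 := hf.mul (-1) 0
      have h5 := hf.mul 0 (-1)
      rw [add_neg_cancel] at h2
      have h6 : f 0 * f (-1) = f 0 := by rw [← h5, zero_mul]
      have h7 : f 0 * (f 0 - 1) = 0 := by rw [mul_sub, ← h3]; ring
      have h8 : f (-1) = f 0 - 1 := by rw [h2]; ring
      rw [h8, h7] at h6
      exact h6.symm
    have hφ0 : φ 0 = 0 := by rw [← hφ, map_zero, h00]
    have h1a : ∀ a, φ (1 + a) = 1 + φ a := by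
      intro a
      rw [← hφ, ← hφ, map_add, map_one, hf.one_add]
    have hmul : ∀ a b, φ (a * b) = φ a * φ b := by
      intro a b
      rw [← hφ, ← hφ, ← hφ, map_mul, hf.mul]
    have h1 : φ 1 = 1 := by
      have := h1a 0
      rwa [add_zero, hφ0, add_zero] at this
    let ψ : k →+* K :=
      { toFun := φ
        map_one' := h1
        map_mul' := hmul
        map_zero' := hφ0
        map_add' := field_add h1a hmul hφ0 }
    refine ⟨⟨ψ, fun c => rfl⟩, fun c α => ?_⟩
    have h2 : linearForm k (c • α) = algebraMap k _ c * linearForm k α := by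
      have h3 := Pool.Agent.Y73.XB.lin_smul k c α
      rw [Algebra.smul_def] at h3
      exact h3
    rw [← hh, ← hh, h2, hf.mul, hφ]
  · rintro ⟨⟨ψ, hψ⟩, hh⟩
    obtain ⟨f, hf, hf1, hf2⟩ := exists_of ψ h (fun c α => by rw [hh, hψ])
    exact ⟨f, hf, fun c => by rw [hf1, hψ], hf2⟩
  · classical
    obtain ⟨f, hf, hf1, hf2⟩ := exists_of (RingHom.id k)
      (fun α : Fin 2 →₀ k => if α 0 = 0 then 0 else α 0 * g (α 1 / α 0)) (fun c α => by
        by_cases hc : c = 0
        · simp [hc]
        · by_cases hα : α 0 = 0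
          · simp [hα]
          · have h1 : (c • α) 0 ≠ 0 := by
              rw [Finsupp.smul_apply]
              exact mul_ne_zero hc hα
            rw [if_neg h1, if_neg hα, Finsupp.smul_apply, Finsupp.smul_apply, smul_eq_mul,
              smul_eq_mul, mul_div_mul_left _ _ hc, RingHom.id_apply, mul_assoc])
    have hl : ∀ a b : k, linearForm k (Finsupp.single (0 : Fin 2) a + Finsupp.single 1 b) =
        a • FreeAlgebra.ι k 0 + b • FreeAlgebra.ι k 1 := by
      intro a b
      have h1 : ∀ α : Fin 2 →₀ k, linearForm k α =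
          Finsupp.linearCombination k (FreeAlgebra.ι k) α := fun α =>
        (Finsupp.linearCombination_apply k α).symm
      rw [h1, map_add, Finsupp.linearCombination_single, Finsupp.linearCombination_single]
    have hv : ∀ a b : k, f (a • FreeAlgebra.ι k 0 + b • FreeAlgebra.ι k 1) =
        if a = 0 then 0 else a * g (b / a) := by
      intro a b
      rw [← hl, hf2]
      simp
    refine ⟨f, hf, hf1, ?_, ?_, fun c => ?_⟩
    · have := hv 1 0
      simpa [hg] using this
    · have := hv 0 1
      simpa using this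
    · have := hv 1 c
      simpa using this

end Pool.Agent.Results.MP_0e398f_al.PrescribedLinearForms
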